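import Pool.Agent.H90.WC.Basic

/-!
Preimages of discs under Moebius maps (problem MP_90715c_gt, TwoGates).
-/

open Matrix Set Filter Topology

namespace Pool.Agent.H81.TG

open Pool.Agent.H90.WC

/-- `|d|² - |c|²`. -/
noncomputable def dl (u : G) : ℝ := ‖u 1 1‖ ^ 2 - ‖u 1 0‖ ^ 2

/-- The centre of the image of the closed unit disc. -/
noncomputable def ctr (u : G) : ℂ :=
  (u 0 1 * (starRingEnd ℂ) (u 1 1) - u 0 0 * (starRingEnd ℂ) (u 1 0)) / (dl u : ℂ)

/-- The radius of the image of the closed unit disc. -/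
noncomputable def rad (u : G) : ℝ := (dl u)⁻¹

lemma nsq2 (z : ℂ) : ‖z‖ ^ 2 = z.re ^ 2 + z.im ^ 2 := by
  rw [Complex.sq_norm, Complex.normSq_apply]; ring

/-- The circle identity. -/
lemma circ {u : G} (h : 0 < dl u) (s : ℂ) :
    ‖u 1 1 * s - u 0 1‖ ^ 2 - ‖u 0 0 - u 1 0 * s‖ ^ 2
      = dl u * (‖s - ctr u‖ ^ 2 - rad u ^ 2) := by
  have hdet := det_eq u
  have e1 := congrArg Complex.re hdet
  have e2 := congrArg Complex.im hdet
  simp only [Complex.sub_re, Complex.mul_re, Complex.sub_im, Complex.mul_im, Complex.one_re,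
    Complex.one_im] at e1 e2
  have hD : dl u = (u 1 1).re ^ 2 + (u 1 1).im ^ 2 - ((u 1 0).re ^ 2 + (u 1 0).im ^ 2) := by
    unfold dl
    rw [nsq2, nsq2]
  have hne : dl u ≠ 0 := h.ne'
  have c1 : (ctr u).re * dl u = (u 0 1).re * (u 1 1).re + (u 0 1).im * (u 1 1).im
      - ((u 0 0).re * (u 1 0).re + (u 0 0).im * (u 1 0).im) := by
    unfold ctr
    rw [Complex.div_ofReal_re, div_mul_cancel₀ _ hne]
    simp only [Complex.sub_re, Complex.mul_re, Complex.conj_re, Complex.conj_im]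
    ring
  have c2 : (ctr u).im * dl u = (u 0 1).im * (u 1 1).re - (u 0 1).re * (u 1 1).im
      - ((u 0 0).im * (u 1 0).re - (u 0 0).re * (u 1 0).im) := by
    unfold ctr
    rw [Complex.div_ofReal_im, div_mul_cancel₀ _ hne]
    simp only [Complex.sub_im, Complex.mul_im, Complex.conj_re, Complex.conj_im]
    ring
  have c3 : rad u * dl u = 1 := by
    unfold rad
    exact inv_mul_cancel₀ hne
  apply mul_left_cancel₀ hne
  have t1 : dl u * (dl u * (‖s - ctr u‖ ^ 2 - rad u ^ 2))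
      = (s.re * dl u - (ctr u).re * dl u) ^ 2 + (s.im * dl u - (ctr u).im * dl u) ^ 2
        - (rad u * dl u) ^ 2 := by
    rw [nsq2, Complex.sub_re, Complex.sub_im]
    ring
  rw [t1, c1, c2, c3, nsq2, nsq2]
  simp only [Complex.sub_re, Complex.mul_re, Complex.sub_im, Complex.mul_im]
  rw [hD]
  linear_combination (-((u 0 0).re * (u 1 1).re - (u 0 0).im * (u 1 1).im
    - ((u 0 1).re * (u 1 0).re - (u 0 1).im * (u 1 0).im)) - 1) * e1
    + (-((u 0 0).re * (u 1 1).im + (u 0 0).im * (u 1 1).re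
    - ((u 0 1).re * (u 1 0).im + (u 0 1).im * (u 1 0).re))) * e2

lemma rad_pos {u : G} (h : 0 < dl u) : 0 < rad u := inv_pos.2 h

/-- The denominator of the inverse map does not vanish on the disc. -/
lemma den_ne {u : G} (h : 0 < dl u) {s : ℂ} (hs : ‖s - ctr u‖ ≤ rad u) :
    u⁻¹ 1 0 * s + u⁻¹ 1 1 ≠ 0 := by
  rw [inv_10, inv_11]
  intro h0
  have h1 : u 0 0 - u 1 0 * s = 0 := by linear_combination h0
  have h2 := circ h s
  rw [h1, norm_zero] at h2
  have h3 : ‖s - ctr u‖ ^ 2 ≤ rad u ^ 2 := by gcongr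
  have h4 : ‖u 1 1 * s - u 0 1‖ ^ 2 ≤ 0 := by nlinarith
  have h5 : u 1 1 * s - u 0 1 = 0 := by
    have : ‖u 1 1 * s - u 0 1‖ = 0 := by
      have := sq_nonneg ‖u 1 1 * s - u 0 1‖
      exact pow_eq_zero_iff (two_ne_zero) |>.1 (le_antisymm h4 this)
    exact norm_eq_zero.1 this
  have hdet := det_eq u
  have : (1 : ℂ) = 0 := by
    rw [← hdet]
    linear_combination (u 1 1) * h1 + (u 1 0) * h5
  exact one_ne_zero this

lemma mob_inv (u : G) (s : ℂ) : mob u⁻¹ s = (u 1 1 * s - u 0 1) / (u 0 0 - u 1 0 * s) := by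
  unfold mob
  rw [inv_00, inv_01, inv_10, inv_11]
  congr 1
  ring

/-- The inverse map takes the disc into the closed unit disc. -/
lemma norm_mob_inv_le {u : G} (h : 0 < dl u) {s : ℂ} (hs : ‖s - ctr u‖ ≤ rad u) :
    ‖mob u⁻¹ s‖ ≤ 1 := by
  have hden := den_ne h hs
  rw [inv_10, inv_11] at hden
  have hden' : u 0 0 - u 1 0 * s ≠ 0 := by
    intro h0; apply hden; linear_combination h0
  rw [mob_inv, norm_div, div_le_one (norm_pos_iff.2 hden')]
  have h2 := circ h s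
  have h3 : ‖s - ctr u‖ ^ 2 ≤ rad u ^ 2 := by gcongr
  have h4 : ‖u 1 1 * s - u 0 1‖ ^ 2 ≤ ‖u 0 0 - u 1 0 * s‖ ^ 2 := by nlinarith
  exact le_of_sq_le_sq h4 (norm_nonneg _)

/-- The inverse map takes the circle into the unit circle. -/
lemma norm_mob_inv_eq {u : G} (h : 0 < dl u) {s : ℂ} (hs : ‖s - ctr u‖ = rad u) :
    ‖mob u⁻¹ s‖ = 1 := by
  have hden := den_ne h hs.le
  rw [inv_10, inv_11] at hden
  have hden' : u 0 0 - u 1 0 * s ≠ 0 := by
    intro h0; apply hden; linear_combination h0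
  have h2 := circ h s
  rw [hs, sub_self, mul_zero, sub_eq_zero] at h2
  have h3 : ‖u 1 1 * s - u 0 1‖ = ‖u 0 0 - u 1 0 * s‖ :=
    (sq_eq_sq₀ (norm_nonneg _) (norm_nonneg _)).1 h2
  rw [mob_inv, norm_div, h3, div_self (norm_ne_zero_iff.2 hden')]

lemma continuous_dl : Continuous dl := by
  unfold dl
  exact (((continuous_entry 1 1).norm).pow 2).sub (((continuous_entry 1 0).norm).pow 2)

lemma dl_one : dl 1 = 1 := by
  simp [dl]

lemma ctr_one : ctr 1 = 0 := by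
  simp [ctr]

lemma rad_one : rad 1 = 1 := by
  simp [rad, dl_one]

lemma near_one {ε : ℝ} (hε : 0 < ε) :
    ∀ᶠ u in 𝓝 (1 : G), 0 < dl u ∧ ‖ctr u‖ ≤ ε ∧ |rad u - 1| ≤ ε := by
  have t1 : Tendsto dl (𝓝 1) (𝓝 1) := by
    have := continuous_dl.tendsto 1
    rwa [dl_one] at this
  have t2 : Tendsto ctr (𝓝 1) (𝓝 0) := by
    have c : ContinuousAt ctr 1 := by
      unfold ctr
      refine ContinuousAt.div ?_ ?_ ?_
      · exact (((continuous_entry 0 1).mul
          (Complex.continuous_conj.comp (continuous_entry 1 1))).sub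
          ((continuous_entry 0 0).mul
          (Complex.continuous_conj.comp (continuous_entry 1 0)))).continuousAt
      · exact (Complex.continuous_ofReal.comp continuous_dl).continuousAt
      · rw [dl_one]; simp
    have := c.tendsto
    rwa [ctr_one] at this
  have t3 : Tendsto rad (𝓝 1) (𝓝 1) := by
    have := t1.inv₀ one_ne_zero
    rwa [inv_one] at this
  have t4 : Tendsto (fun u => ‖ctr u‖) (𝓝 1) (𝓝 0) := by
    have := t2.norm
    rwa [norm_zero] at this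
  have t5 : Tendsto (fun u => |rad u - 1|) (𝓝 1) (𝓝 0) := by
    have := (t3.sub_const 1).abs
    rwa [sub_self, abs_zero] at this
  filter_upwards [t1.eventually (lt_mem_nhds one_pos), t4.eventually (gt_mem_nhds hε),
    t5.eventually (gt_mem_nhds hε)] with u h1 h2 h3
  exact ⟨h1, h2.le, h3.le⟩

/-- The frame at scale `r` with origin `z`. -/
noncomputable def fr (z : ℂ) (r : ℝ) (hr : 0 < r) : G :=
  ⟨!![((Real.sqrt r : ℝ) : ℂ), z / ((Real.sqrt r : ℝ) : ℂ); 0, ((Real.sqrt r : ℝ) : ℂ)⁻¹], by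
    have : ((Real.sqrt r : ℝ) : ℂ) ≠ 0 := by exact_mod_cast (Real.sqrt_pos.2 hr).ne'
    rw [Matrix.det_fin_two_of]; simp [this]⟩

lemma fr_00 (z : ℂ) (r : ℝ) (hr : 0 < r) : fr z r hr 0 0 = ((Real.sqrt r : ℝ) : ℂ) := rfl
lemma fr_01 (z : ℂ) (r : ℝ) (hr : 0 < r) : fr z r hr 0 1 = z / ((Real.sqrt r : ℝ) : ℂ) := rfl
lemma fr_10 (z : ℂ) (r : ℝ) (hr : 0 < r) : fr z r hr 1 0 = 0 := rfl
lemma fr_11 (z : ℂ) (r : ℝ) (hr : 0 < r) : fr z r hr 1 1 = ((Real.sqrt r : ℝ) : ℂ)⁻¹ := rfl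

lemma act_fr (z : ℂ) (r : ℝ) (hr : 0 < r) (s : ℂ) :
    act (fr z r hr) (s : OnePoint ℂ) = (((r : ℂ) * s + z : ℂ) : OnePoint ℂ) := by
  have h0 : ((Real.sqrt r : ℝ) : ℂ) ≠ 0 := by exact_mod_cast (Real.sqrt_pos.2 hr).ne'
  have h2 : ((Real.sqrt r : ℝ) : ℂ) * ((Real.sqrt r : ℝ) : ℂ) = (r : ℂ) := by
    rw [← Complex.ofReal_mul, Real.mul_self_sqrt hr.le]
  rw [act_coe_of_ne (by rw [fr_10, fr_11]; simpa using h0)]
  congr 1
  unfold mob
  rw [fr_00, fr_01, fr_10, fr_11, zero_mul, zero_add, div_inv_eq_mul, add_mul,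
    div_mul_cancel₀ _ h0]
  linear_combination s * h2

end Pool.Agent.H81.TG
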