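import Pool.Agent.H81.TG.Gates
import Pool.Agent.H81.TG.Disc

/-!
The two-gate theorem for wandering compact sets of cocompact Kleinian groups
(problem MP_90715c_gt).
-/

open Matrix Set Filter Topology

namespace Pool.Agent.H81.TG

open Pool.Agent.H90.WC

/-- Two translates of `K` by elements which differ not only by a sign are disjoint. -/
lemma disj {Γ : Subgroup G} {K : Set (OnePoint ℂ)}
    (wand : ∀ g ∈ Γ, g ≠ 1 → g ≠ -1 → ∀ x ∈ K, act g x ∉ K) {γ γ' : G} (hγ : γ ∈ Γ)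
    (hγ' : γ' ∈ Γ) (h1 : γ' ≠ γ) (h2 : γ' ≠ -γ) {p : OnePoint ℂ} (hp : act γ⁻¹ p ∈ K)
    (hp' : act γ'⁻¹ p ∈ K) : False := by
  refine wand (γ⁻¹ * γ') (Γ.mul_mem (Γ.inv_mem hγ) hγ') ?_ ?_ _ hp' ?_
  · intro e
    exact h1 (by rw [inv_mul_eq_one] at e; exact e.symm)
  · intro e
    apply h2
    have : γ' = γ * (-1) := by rw [← e]; group
    rw [this]; simp
  · rw [← act_mul, mul_assoc, mul_inv_cancel, mul_one]
    exact hp

/-- The pull back of a continuum with three ends on the circle. -/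
lemma pull {K : Set (OnePoint ℂ)} (cpt : IsCompact K) {z : ℂ} {r : ℝ} (hr : 0 < r) {u : G}
    (hu : 0 < dl u) {η : ℝ} (hη : 0 < η) (hc : ‖ctr u‖ ≤ 1) (hrad : |rad u - 1| ≤ 1)
    (hm : ∀ w : ℂ, ‖w‖ ≤ 3 → ‖mob u⁻¹ w - w‖ ≤ η / 4) {B : Set ℂ}
    (hB : IsPreconnected B)
    (hBK : ∀ v ∈ B, (v : OnePoint ℂ) ∈ K ∧ ‖v - (z + (r : ℂ) * ctr u)‖ ≤ r * rad u)
    {x : Fin 3 → ℂ} (hx : ∀ i, x i ∈ B ∧ ‖x i - (z + (r : ℂ) * ctr u)‖ = r * rad u)
    (hd : ∀ i j, i ≠ j → η * r ≤ ‖x i - x j‖) :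
    ∃ b : Set ℂ × (Fin 3 → ℂ), IsCompact b.1 ∧ IsPreconnected b.1 ∧ (∀ w ∈ b.1, ‖w‖ ≤ 1) ∧
      (∀ i, b.2 i ∈ b.1 ∧ ‖b.2 i‖ = 1) ∧ (∀ i j, i ≠ j → η / 2 ≤ dist (b.2 i) (b.2 j)) ∧
      ∀ w ∈ b.1, act (fr z r hr * u) (w : OnePoint ℂ) ∈ K := by
  have hrC : (r : ℂ) ≠ 0 := by exact_mod_cast hr.ne'
  -- rescaling
  have resc : ∀ v : ℂ, ‖(v - z) / (r : ℂ) - ctr u‖ = ‖v - (z + (r : ℂ) * ctr u)‖ / r := by
    intro v
    have e : (v - z) / (r : ℂ) - ctr u = (v - (z + (r : ℂ) * ctr u)) / (r : ℂ) := by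
      field_simp
      ring
    rw [e, norm_div, Complex.norm_real, Real.norm_of_nonneg hr.le]
  have le1 : ∀ v : ℂ, ‖v - (z + (r : ℂ) * ctr u)‖ ≤ r * rad u →
      ‖(v - z) / (r : ℂ) - ctr u‖ ≤ rad u := by
    intro v hv
    rw [resc, div_le_iff₀ hr]
    linarith
  have eq1 : ∀ v : ℂ, ‖v - (z + (r : ℂ) * ctr u)‖ = r * rad u →
      ‖(v - z) / (r : ℂ) - ctr u‖ = rad u := by
    intro v hv
    rw [resc, hv, mul_div_assoc, mul_comm, div_mul_cancel₀ _ hr.ne']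
  -- the closure of `B`
  have hcl : IsClosed {v : ℂ | (v : OnePoint ℂ) ∈ K ∧ ‖v - (z + (r : ℂ) * ctr u)‖ ≤ r * rad u} := by
    refine IsClosed.inter ?_ ?_
    · exact cpt.isClosed.preimage OnePoint.continuous_coe
    · exact isClosed_le (f := fun v : ℂ => ‖v - (z + (r : ℂ) * ctr u)‖)
        (g := fun _ => r * rad u) (by fun_prop) continuous_const
  have hBK' : ∀ v ∈ closure B,
      (v : OnePoint ℂ) ∈ K ∧ ‖v - (z + (r : ℂ) * ctr u)‖ ≤ r * rad u := by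
    intro v hv
    exact closure_minimal (fun v hv => hBK v hv) hcl hv
  have hcpt : IsCompact (closure B) := by
    refine (isCompact_closedBall (z + (r : ℂ) * ctr u) (r * rad u)).of_isClosed_subset
      isClosed_closure ?_
    intro v hv
    rw [mem_closedBall_iff_norm]
    exact (hBK' v hv).2
  have hcont : ContinuousOn (fun v : ℂ => mob u⁻¹ ((v - z) / (r : ℂ))) (closure B) := by
    unfold mob
    refine ContinuousOn.div (by fun_prop) (by fun_prop) ?_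
    intro v hv
    exact den_ne hu (le1 v (hBK' v hv).2)
  refine ⟨((fun v : ℂ => mob u⁻¹ ((v - z) / (r : ℂ))) '' closure B,
    fun i => mob u⁻¹ ((x i - z) / (r : ℂ))), hcpt.image_of_continuousOn hcont,
    hB.closure.image _ hcont, ?_, ?_, ?_, ?_⟩
  · rintro _ ⟨v, hv, rfl⟩
    exact norm_mob_inv_le hu (le1 v (hBK' v hv).2)
  · intro i
    exact ⟨mem_image_of_mem _ (subset_closure (hx i).1), norm_mob_inv_eq hu (eq1 _ (hx i).2)⟩
  · intro i j hij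
    have bd : ∀ i, ‖(x i - z) / (r : ℂ)‖ ≤ 3 := by
      intro i
      have h1 := eq1 _ (hx i).2
      have h2 := norm_sub_norm_le ((x i - z) / (r : ℂ)) (ctr u)
      have h3 := (abs_le.1 hrad).2
      linarith
    have m1 := hm _ (bd i)
    have m2 := hm _ (bd j)
    have s1 : η ≤ ‖(x i - z) / (r : ℂ) - (x j - z) / (r : ℂ)‖ := by
      have e : (x i - z) / (r : ℂ) - (x j - z) / (r : ℂ) = (x i - x j) / (r : ℂ) := by
        field_simp
        ring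
      rw [e, norm_div, Complex.norm_real, Real.norm_of_nonneg hr.le, le_div_iff₀ hr]
      exact hd i j hij
    have s2 : (x i - z) / (r : ℂ) - (x j - z) / (r : ℂ)
        = (mob u⁻¹ ((x i - z) / (r : ℂ)) - mob u⁻¹ ((x j - z) / (r : ℂ)))
          - (mob u⁻¹ ((x i - z) / (r : ℂ)) - (x i - z) / (r : ℂ))
          + (mob u⁻¹ ((x j - z) / (r : ℂ)) - (x j - z) / (r : ℂ)) := by ring
    rw [s2] at s1
    have s3 := norm_add_le ((mob u⁻¹ ((x i - z) / (r : ℂ)) - mob u⁻¹ ((x j - z) / (r : ℂ)))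
          - (mob u⁻¹ ((x i - z) / (r : ℂ)) - (x i - z) / (r : ℂ)))
          (mob u⁻¹ ((x j - z) / (r : ℂ)) - (x j - z) / (r : ℂ))
    have s4 := norm_sub_le (mob u⁻¹ ((x i - z) / (r : ℂ)) - mob u⁻¹ ((x j - z) / (r : ℂ)))
          (mob u⁻¹ ((x i - z) / (r : ℂ)) - (x i - z) / (r : ℂ))
    show η / 2 ≤ dist (mob u⁻¹ ((x i - z) / (r : ℂ))) (mob u⁻¹ ((x j - z) / (r : ℂ)))
    rw [dist_eq_norm]
    linarith
  · rintro _ ⟨v, hv, rfl⟩
    have hden := den_ne hu (le1 v (hBK' v hv).2)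
    show act (fr z r hr * u) ((mob u⁻¹ ((v - z) / (r : ℂ)) : ℂ) : OnePoint ℂ) ∈ K
    rw [← act_coe_of_ne hden, act_mul, act_act_inv, act_fr]
    have e : (r : ℂ) * ((v - z) / (r : ℂ)) + z = v := by
      field_simp
      ring
    rw [e]
    exact (hBK' v hv).1

/-- The two-gate theorem. -/
theorem two_gates {Γ : Subgroup G} {K : Set (OnePoint ℂ)}
    (coc : ∃ C : Set G, IsCompact C ∧ ∀ g : G, ∃ γ ∈ Γ, γ * g ∈ C) (cpt : IsCompact K)
    (wand : ∀ g ∈ Γ, g ≠ 1 → g ≠ -1 → ∀ x ∈ K, act g x ∉ K) {η : ℝ} (hη : 0 < η) :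
    ∃ r₀ > (0 : ℝ), ∀ (z : ℂ) (r : ℝ), 0 < r → r < r₀ →
      ∃ (z' : ℂ) (r' : ℝ), 0 < r' ∧ ‖z' - z‖ ≤ η * r ∧ |r' - r| ≤ η * r ∧
        ∀ B : Set ℂ, IsPreconnected B → (∀ v ∈ B, (v : OnePoint ℂ) ∈ K ∧ ‖v - z'‖ ≤ r') →
          ∀ x : Fin 3 → ℂ, (∀ i, x i ∈ B ∧ ‖x i - z'‖ = r') →
            ∃ i j, i ≠ j ∧ ‖x i - x j‖ < η * r := by
  by_contra hcon
  push Not at hcon
  have hex : ∀ n : ℕ, ∃ (z : ℂ) (r : ℝ), 0 < r ∧ r < 1 / ((n : ℝ) + 1) ∧
      ∀ (z' : ℂ) (r' : ℝ), 0 < r' → ‖z' - z‖ ≤ η * r → |r' - r| ≤ η * r →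
        ∃ B : Set ℂ, IsPreconnected B ∧ (∀ v ∈ B, (v : OnePoint ℂ) ∈ K ∧ ‖v - z'‖ ≤ r') ∧
          ∃ x : Fin 3 → ℂ, (∀ i, x i ∈ B ∧ ‖x i - z'‖ = r') ∧
            ∀ i j, i ≠ j → η * r ≤ ‖x i - x j‖ := by
    intro n
    exact hcon (1 / ((n : ℝ) + 1)) (by positivity)
  choose z r hr hrn hbad using hex
  obtain ⟨C, hC, hcoc⟩ := coc
  choose γ hγ hγC using fun n => hcoc (fr (z n) (r n) (hr n))
  -- an ultrafilter
  obtain ⟨U, hU⟩ : ∃ U : Ultrafilter ℕ, (U : Filter ℕ) ≤ atTop := ⟨Ultrafilter.of atTop,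
    Ultrafilter.of_le _⟩
  obtain ⟨a, -, ha⟩ := hC.ultrafilter_le_nhds' (U.map fun n => γ n * fr (z n) (r n) (hr n))
    (by
      rw [Ultrafilter.mem_map]
      exact Filter.univ_mem' hγC)
  have ha' : Tendsto (fun n => γ n * fr (z n) (r n) (hr n)) U (𝓝 a) := ha
  have hu1 : Tendsto (fun n => (γ n * fr (z n) (r n) (hr n))⁻¹ * a) U (𝓝 1) := by
    have h1 := (ha'.inv).mul_const a
    rwa [inv_mul_cancel] at h1
  have hu2 : Tendsto (fun n => ((γ n * fr (z n) (r n) (hr n))⁻¹ * a)⁻¹) U (𝓝 1) := by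
    have h1 := hu1.inv
    rwa [inv_one] at h1
  have key : ∀ᶠ n in (U : Filter ℕ), ∃ b : Set ℂ × (Fin 3 → ℂ), IsCompact b.1 ∧
      IsPreconnected b.1 ∧ (∀ w ∈ b.1, ‖w‖ ≤ 1) ∧ (∀ i, b.2 i ∈ b.1 ∧ ‖b.2 i‖ = 1) ∧
      (∀ i j, i ≠ j → η / 2 ≤ dist (b.2 i) (b.2 j)) ∧
      ∀ w ∈ b.1, act ((γ n)⁻¹ * a) (w : OnePoint ℂ) ∈ K := by
    filter_upwards [hu1.eventually (near_one (ε := min η 1) (lt_min hη one_pos)),
      hu2.eventually (mob_near_one 3 (δ := η / 4) (by linarith))] with n h1 h2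
    set u : G := (γ n * fr (z n) (r n) (hr n))⁻¹ * a with hu
    obtain ⟨h11, h12, h13⟩ := h1
    obtain ⟨B, hB, hBK, x, hx, hd⟩ := hbad n (z n + (r n : ℂ) * ctr u) (r n * rad u)
      (mul_pos (hr n) (rad_pos h11))
      (by
        rw [add_sub_cancel_left, norm_mul, Complex.norm_real, Real.norm_of_nonneg (hr n).le,
          mul_comm]
        exact mul_le_mul_of_nonneg_right (h12.trans (min_le_left _ _)) (hr n).le)
      (by
        have e : r n * rad u - r n = (rad u - 1) * r n := by ring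
        rw [e, abs_mul, abs_of_pos (hr n)]
        exact mul_le_mul_of_nonneg_right (h13.trans (min_le_left _ _)) (hr n).le)
    obtain ⟨b, hb1, hb2, hb3, hb4, hb5, hb6⟩ := pull cpt (hr n) h11 hη
      (h12.trans (min_le_right _ _)) (h13.trans (min_le_right _ _)) (fun w hw => (h2 w hw).2)
      hB hBK hx hd
    refine ⟨b, hb1, hb2, hb3, hb4, hb5, fun w hw => ?_⟩
    have e : (γ n)⁻¹ * a = fr (z n) (r n) (hr n) * u := by
      rw [hu]; group
    rw [e]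
    exact hb6 w hw
  obtain ⟨b, hb⟩ := key.choice
  -- the limit of the ends
  obtain ⟨L, -, hL⟩ := (isCompact_closedBall (0 : Fin 3 → ℂ) 1).ultrafilter_le_nhds'
    (U.map fun n => (b n).2)
    (by
      rw [Ultrafilter.mem_map]
      filter_upwards [hb] with n hn
      show (b n).2 ∈ Metric.closedBall 0 1
      rw [mem_closedBall_zero_iff, pi_norm_le_iff_of_nonneg zero_le_one]
      exact fun i => (hn.2.2.2.1 i).2.le)
  have hL' : Tendsto (fun n => (b n).2) U (𝓝 L) := hL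
  have hgood : ∀ᶠ n in (U : Filter ℕ), dist (b n).2 L < η / 8 :=
    hL'.eventually (Metric.ball_mem_nhds L (by linarith))
  obtain ⟨n, hn1, hn2⟩ := (hb.and hgood).exists
  -- the group elements go to infinity
  have hinf : ∀ g : G, ∀ᶠ m in (U : Filter ℕ), γ m ≠ g := by
    intro g
    have t1 : Tendsto (fun m => ‖(g⁻¹ * (γ m * fr (z m) (r m) (hr m))) 1 1‖) U
        (𝓝 ‖(g⁻¹ * a) 1 1‖) :=
      (((continuous_entry 1 1).tendsto _).comp (ha'.const_mul g⁻¹)).norm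
    have t2 := t1.eventually (gt_mem_nhds (lt_add_one _))
    set D : ℝ := ‖(g⁻¹ * a) 1 1‖ + 1 with hD
    have hD0 : 0 < D := by positivity
    have t3 : ∀ᶠ m : ℕ in atTop, 1 / ((m : ℝ) + 1) < 1 / D ^ 2 := by
      have := tendsto_one_div_add_atTop_nhds_zero_nat (𝕜 := ℝ)
      exact this.eventually (gt_mem_nhds (by positivity))
    filter_upwards [t2, hU t3] with m h1 h2 h3
    rw [h3, inv_mul_cancel_left, fr_11, norm_inv, Complex.norm_real,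
      Real.norm_of_nonneg (Real.sqrt_nonneg _)] at h1
    have h4 : r m < 1 / D ^ 2 := (hrn m).trans h2
    have h5 : Real.sqrt (r m) < 1 / D := by
      rw [Real.sqrt_lt' (by positivity), div_pow, one_pow]
      exact h4
    have h6 : D < (Real.sqrt (r m))⁻¹ := by
      rw [lt_inv_comm₀ hD0 (Real.sqrt_pos.2 (hr m)), ← one_div]
      exact h5
    linarith
  obtain ⟨m, ⟨hm1, hm2⟩, hm3, hm4⟩ :=
    ((hb.and hgood).and ((hinf (γ n)).and (hinf (-γ n)))).exists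
  obtain ⟨p1, p2, p3, p4, p5, p6⟩ := hn1
  obtain ⟨q1, q2, q3, q4, q5, q6⟩ := hm1
  obtain ⟨w, hw1, hw2⟩ := three_gates (δ := 3 * η / 8) p1 p2 q1 q2 p3 q3 (fun i => (p4 i).1)
    (fun i => (q4 i).1) (fun i => (p4 i).2) (fun i => (q4 i).2)
    (fun i j hij => by
      have := p5 i j hij
      linarith)
    (fun i => by
      have e1 : dist ((b n).2 i) ((b m).2 i) ≤ dist (b n).2 (b m).2 := dist_le_pi_dist _ _ i
      have e2 := dist_triangle_right (b n).2 (b m).2 L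
      linarith)
  have k1 := p6 w hw1
  have k2 := q6 w hw2
  rw [act_mul] at k1 k2
  exact disj wand (hγ n) (hγ m) hm3 hm4 k1 k2

end Pool.Agent.H81.TG
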