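import Pool.Agent.H20.WC.CrossC

/-!
Two continua in the closed unit disc with linked ends meet (problem MP_90715c_gt, TwoGates).
-/

open Set Topology Filter

namespace Pool.Agent.H81.TG

/-- The side of `v` with respect to the line through `a` and `b`. -/
noncomputable def sd (a b v : ℂ) : ℝ := (b.re - a.re) * (v.im - a.im) - (b.im - a.im) * (v.re - a.re)

/-- The point `a + t (b - a)`. -/
noncomputable def ln (a b : ℂ) (t : ℝ) : ℂ := ⟨a.re + t * (b.re - a.re), a.im + t * (b.im - a.im)⟩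

lemma ln_zero (a b : ℂ) : ln a b 0 = a := by
  apply Complex.ext <;> simp [ln]

lemma ln_one (a b : ℂ) : ln a b 1 = b := by
  apply Complex.ext <;> simp [ln]

lemma continuous_ln (a b : ℂ) : Continuous (ln a b) := by
  have : ln a b = fun t : ℝ => ((a.re + t * (b.re - a.re) : ℝ) : ℂ)
      + ((a.im + t * (b.im - a.im) : ℝ) : ℂ) * Complex.I := by
    funext t
    apply Complex.ext <;> simp [ln]
  rw [this]
  fun_prop

lemma sd_ln (a b c d : ℂ) (t : ℝ) : sd a b (ln c d t) = sd a b c + t * (sd a b d - sd a b c) := by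
  simp only [sd, ln]; ring

lemma sd_self (a b : ℂ) (t : ℝ) : sd a b (ln a b t) = 0 := by
  simp only [sd, ln]; ring

lemma sd_swap (a b c d : ℂ) : sd c d b - sd c d a = -(sd a b d - sd a b c) := by
  simp only [sd]; ring

lemma nsq {z : ℂ} (h : ‖z‖ = 1) : z.re ^ 2 + z.im ^ 2 = 1 := by
  have := Complex.sq_norm z
  rw [Complex.normSq_apply, h] at this
  nlinarith

lemma nsq_le {z : ℂ} (h : ‖z‖ ≤ 1) : z.re ^ 2 + z.im ^ 2 ≤ 1 := by
  have := Complex.sq_norm z
  rw [Complex.normSq_apply] at this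
  have h0 := norm_nonneg z
  nlinarith

/-- A point of the line through two points of the circle, outside of the open chord and in the
closed disc, is one of the two points. -/
lemma ln_out {a b : ℂ} (ha : ‖a‖ = 1) (hb : ‖b‖ = 1) {t : ℝ} (ht : t ≤ 0 ∨ 1 ≤ t)
    (hv : ‖ln a b t‖ ≤ 1) : ln a b t = a ∨ ln a b t = b := by
  have h1 := nsq ha
  have h2 := nsq hb
  have h3 := nsq_le hv
  simp only [ln] at h3
  have key : t * (t - 1) * ((b.re - a.re) ^ 2 + (b.im - a.im) ^ 2) ≤ 0 := by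
    have e : (a.re + t * (b.re - a.re)) ^ 2 + (a.im + t * (b.im - a.im)) ^ 2
        = (1 - t) * (a.re ^ 2 + a.im ^ 2) + t * (b.re ^ 2 + b.im ^ 2)
          + t * (t - 1) * ((b.re - a.re) ^ 2 + (b.im - a.im) ^ 2) := by ring
    rw [h1, h2] at e
    linarith
  by_cases hab : (b.re - a.re) ^ 2 + (b.im - a.im) ^ 2 = 0
  · left
    have e1 : b.re - a.re = 0 := by nlinarith [sq_nonneg (b.re - a.re), sq_nonneg (b.im - a.im)]
    have e2 : b.im - a.im = 0 := by nlinarith [sq_nonneg (b.re - a.re), sq_nonneg (b.im - a.im)]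
    apply Complex.ext <;> simp [ln, e1, e2]
  · have hpos : 0 < (b.re - a.re) ^ 2 + (b.im - a.im) ^ 2 :=
      lt_of_le_of_ne (by positivity) (Ne.symm hab)
    have h4 : t * (t - 1) ≤ 0 := by
      by_contra hc
      push Not at hc
      have := mul_pos hc hpos
      linarith
    rcases ht with ht | ht
    · have : t = 0 := by nlinarith
      left
      rw [this, ln_zero]
    · have : t = 1 := by nlinarith
      right
      rw [this, ln_one]

lemma sd_bound {a b v : ℂ} (ha : ‖a‖ ≤ 1) (hb : ‖b‖ ≤ 1) (hv : ‖v‖ ≤ 1) : |sd a b v| < 9 := by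
  have e1 := (Complex.abs_re_le_norm a).trans ha
  have e2 := (Complex.abs_im_le_norm a).trans ha
  have e3 := (Complex.abs_re_le_norm b).trans hb
  have e4 := (Complex.abs_im_le_norm b).trans hb
  have e5 := (Complex.abs_re_le_norm v).trans hv
  have e6 := (Complex.abs_im_le_norm v).trans hv
  rw [abs_le] at e1 e2 e3 e4 e5 e6
  have f1 : |b.re - a.re| ≤ 2 := abs_le.2 ⟨by linarith, by linarith⟩
  have f2 : |v.im - a.im| ≤ 2 := abs_le.2 ⟨by linarith, by linarith⟩
  have f3 : |b.im - a.im| ≤ 2 := abs_le.2 ⟨by linarith, by linarith⟩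
  have f4 : |v.re - a.re| ≤ 2 := abs_le.2 ⟨by linarith, by linarith⟩
  unfold sd
  calc |(b.re - a.re) * (v.im - a.im) - (b.im - a.im) * (v.re - a.re)|
      ≤ |(b.re - a.re) * (v.im - a.im)| + |(b.im - a.im) * (v.re - a.re)| := abs_sub _ _
    _ = |b.re - a.re| * |v.im - a.im| + |b.im - a.im| * |v.re - a.re| := by
        rw [abs_mul, abs_mul]
    _ ≤ 2 * 2 + 2 * 2 := by gcongr
    _ < 9 := by norm_num

/-- A continuum together with two pieces of the line through two of its points. -/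
def ext (P : Set ℂ) (a b : ℂ) (M : ℝ) : Set ℂ :=
  P ∪ (ln a b '' Icc (-M) 0 ∪ ln a b '' Icc 1 M)

lemma ext_compact {P : Set ℂ} (hP : IsCompact P) (a b : ℂ) (M : ℝ) : IsCompact (ext P a b M) :=
  hP.union ((isCompact_Icc.image (continuous_ln a b)).union
    (isCompact_Icc.image (continuous_ln a b)))

lemma ext_conn {P : Set ℂ} (hP : IsPreconnected P) {a b : ℂ} (ha : a ∈ P) (hb : b ∈ P) {M : ℝ}
    (hM : 1 ≤ M) : IsPreconnected (ext P a b M) := by
  have h1 : IsPreconnected (P ∪ ln a b '' Icc (-M) 0) :=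
    hP.union a ha ⟨0, ⟨by linarith, le_refl _⟩, ln_zero a b⟩
      (isPreconnected_Icc.image _ (continuous_ln a b).continuousOn)
  have h2 : IsPreconnected ((P ∪ ln a b '' Icc (-M) 0) ∪ ln a b '' Icc 1 M) :=
    h1.union b (Or.inl hb) ⟨1, ⟨le_refl _, hM⟩, ln_one a b⟩
      (isPreconnected_Icc.image _ (continuous_ln a b).continuousOn)
  rw [union_assoc] at h2
  exact h2

/-- The change of coordinates. -/
noncomputable def cc (a b c d v : ℂ) : ℂ := ⟨sd c d v, sd a b v⟩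

lemma continuous_cc (a b c d : ℂ) : Continuous (cc a b c d) := by
  have : cc a b c d = fun v : ℂ => ((sd c d v : ℝ) : ℂ) + ((sd a b v : ℝ) : ℂ) * Complex.I := by
    funext v
    apply Complex.ext <;> simp [cc]
  rw [this]
  unfold sd
  fun_prop

lemma cc_inj {a b c d : ℂ} (h : sd a b d - sd a b c ≠ 0) {v w : ℂ}
    (e : cc a b c d v = cc a b c d w) : v = w := by
  have e1 := congrArg Complex.re e
  have e2 := congrArg Complex.im e
  simp only [cc, sd] at e1 e2 h
  have k1 : (sd a b d - sd a b c) * (v.re - w.re) = 0 := by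
    simp only [sd]
    linear_combination (d.re - c.re) * e2 - (b.re - a.re) * e1
  have k2 : (sd a b d - sd a b c) * (v.im - w.im) = 0 := by
    simp only [sd]
    linear_combination (d.im - c.im) * e2 - (b.im - a.im) * e1
  have h' : sd a b d - sd a b c ≠ 0 := by simpa only [sd] using h
  have l1 := (mul_eq_zero.1 k1).resolve_left h'
  have l2 := (mul_eq_zero.1 k2).resolve_left h'
  exact Complex.ext (by linarith) (by linarith)

lemma reach {A B : ℝ} (hA : |A| < 9) (hB : B ≠ 0) {M : ℝ} (hM : 18 / |B| ≤ M) :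
    (A + (-M) * B ≤ -9 ∧ 9 ≤ A + M * B) ∨ (A + M * B ≤ -9 ∧ 9 ≤ A + (-M) * B) := by
  have hB0 : 0 < |B| := abs_pos.2 hB
  have h1 : 18 ≤ M * |B| := by
    rw [div_le_iff₀ hB0] at hM
    exact hM
  have h2 := abs_lt.1 hA
  rcases lt_or_gt_of_ne hB with h | h
  · right
    rw [abs_of_neg h] at h1
    constructor <;> nlinarith
  · left
    rw [abs_of_pos h] at h1
    constructor <;> nlinarith

/-- Two continua in the closed unit disc with linked ends meet. -/
theorem cross_disc {P Q : Set ℂ} (hP : IsCompact P) (hPc : IsPreconnected P) (hQ : IsCompact Q)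
    (hQc : IsPreconnected Q) (hP1 : ∀ z ∈ P, ‖z‖ ≤ 1) (hQ1 : ∀ z ∈ Q, ‖z‖ ≤ 1)
    {a b c d : ℂ} (ha : a ∈ P) (hb : b ∈ P) (hc : c ∈ Q) (hd : d ∈ Q)
    (na : ‖a‖ = 1) (nb : ‖b‖ = 1) (nc : ‖c‖ = 1) (nd : ‖d‖ = 1)
    (hS : sd a b c * sd a b d < 0) : (P ∩ Q).Nonempty := by
  have hne : sd a b d - sd a b c ≠ 0 := by
    intro h
    have : sd a b d = sd a b c := by linarith
    rw [this] at hS
    nlinarith [mul_self_nonneg (sd a b c)]
  have hne2 : sd c d b - sd c d a ≠ 0 := by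
    rw [sd_swap]
    exact neg_ne_zero.2 hne
  set M : ℝ := 1 + 18 / |sd a b d - sd a b c| with hM
  have hMpos : 0 < |sd a b d - sd a b c| := abs_pos.2 hne
  have hM1 : 1 ≤ M := by
    have : 0 ≤ 18 / |sd a b d - sd a b c| := by positivity
    linarith
  have hM2 : 18 / |sd a b d - sd a b c| ≤ M := by linarith
  have hM3 : 18 / |sd c d b - sd c d a| ≤ M := by
    rw [sd_swap, abs_neg]; exact hM2
  have n1 : ∀ t, cc a b c d (ln a b t) = ⟨sd c d a + t * (sd c d b - sd c d a), 0⟩ := by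
    intro t
    simp only [cc, sd_ln c d a b t, sd_self]
  have n2 : ∀ t, cc a b c d (ln c d t) = ⟨0, sd a b c + t * (sd a b d - sd a b c)⟩ := by
    intro t
    simp only [cc, sd_ln a b c d t, sd_self]
  have mP : ∀ t, t = -M ∨ t = M → cc a b c d (ln a b t) ∈ cc a b c d '' ext P a b M := by
    rintro t (rfl | rfl)
    · exact mem_image_of_mem _ (Or.inr (Or.inl ⟨_, ⟨le_refl _, by linarith⟩, rfl⟩))
    · exact mem_image_of_mem _ (Or.inr (Or.inr ⟨_, ⟨hM1, le_refl _⟩, rfl⟩))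
  have mQ : ∀ t, t = -M ∨ t = M → cc a b c d (ln c d t) ∈ cc a b c d '' ext Q c d M := by
    rintro t (rfl | rfl)
    · exact mem_image_of_mem _ (Or.inr (Or.inl ⟨_, ⟨le_refl _, by linarith⟩, rfl⟩))
    · exact mem_image_of_mem _ (Or.inr (Or.inr ⟨_, ⟨hM1, le_refl _⟩, rfl⟩))
  have r1 := reach (sd_bound nc.le nd.le na.le) hne2 hM3
  have r2 := reach (sd_bound na.le nb.le nc.le) hne hM2
  have hl : (∃ z ∈ cc a b c d '' ext P a b M, z.re ≤ -9) ∧
      ∃ z ∈ cc a b c d '' ext P a b M, 9 ≤ z.re := by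
    rcases r1 with ⟨r, r'⟩ | ⟨r, r'⟩
    · exact ⟨⟨_, mP (-M) (Or.inl rfl), by rw [n1]; exact r⟩,
        ⟨_, mP M (Or.inr rfl), by rw [n1]; exact r'⟩⟩
    · exact ⟨⟨_, mP M (Or.inr rfl), by rw [n1]; exact r⟩,
        ⟨_, mP (-M) (Or.inl rfl), by rw [n1]; exact r'⟩⟩
  have hu : (∃ z ∈ cc a b c d '' ext Q c d M, z.im ≤ -9) ∧
      ∃ z ∈ cc a b c d '' ext Q c d M, 9 ≤ z.im := by
    rcases r2 with ⟨r, r'⟩ | ⟨r, r'⟩
    · exact ⟨⟨_, mQ (-M) (Or.inl rfl), by rw [n2]; exact r⟩,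
        ⟨_, mQ M (Or.inr rfl), by rw [n2]; exact r'⟩⟩
    · exact ⟨⟨_, mQ M (Or.inr rfl), by rw [n2]; exact r⟩,
        ⟨_, mQ (-M) (Or.inl rfl), by rw [n2]; exact r'⟩⟩
  have hcc := continuous_cc a b c d
  obtain ⟨z, ⟨v, hv, hvz⟩, w, hw, hwz⟩ := Pool.Agent.H90.WC.cross_continua
    ((ext_compact hP a b M).image hcc) ((ext_conn hPc ha hb hM1).image _ hcc.continuousOn)
    ((ext_compact hQ c d M).image hcc) ((ext_conn hQc hc hd hM1).image _ hcc.continuousOn)
    (a := 9) (b := 9) (by norm_num) (by norm_num)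
    (by
      rintro _ ⟨v, hv | ⟨t, -, rfl⟩ | ⟨t, -, rfl⟩, rfl⟩
      · exact sd_bound na.le nb.le (hP1 v hv)
      · rw [n1]; norm_num
      · rw [n1]; norm_num)
    (by
      rintro _ ⟨v, hv | ⟨t, -, rfl⟩ | ⟨t, -, rfl⟩, rfl⟩
      · exact sd_bound nc.le nd.le (hQ1 v hv)
      · rw [n2]; norm_num
      · rw [n2]; norm_num)
    hl.1 hl.2 hu.1 hu.2
  have hvw : v = w := cc_inj hne (hvz.trans hwz.symm)
  subst hvw
  have hv' : v ∈ P ∨ ∃ t, (t ≤ 0 ∨ 1 ≤ t) ∧ ln a b t = v := by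
    rcases hv with h | ⟨t, ht, e⟩ | ⟨t, ht, e⟩
    · exact Or.inl h
    · exact Or.inr ⟨t, Or.inl ht.2, e⟩
    · exact Or.inr ⟨t, Or.inr ht.1, e⟩
  have hw' : v ∈ Q ∨ ∃ t, (t ≤ 0 ∨ 1 ≤ t) ∧ ln c d t = v := by
    rcases hw with h | ⟨t, ht, e⟩ | ⟨t, ht, e⟩
    · exact Or.inl h
    · exact Or.inr ⟨t, Or.inl ht.2, e⟩
    · exact Or.inr ⟨t, Or.inr ht.1, e⟩
  rcases hv' with h1 | ⟨t, ht, e1⟩ <;> rcases hw' with h2 | ⟨s, hs, e2⟩
  · exact ⟨v, h1, h2⟩
  · rcases ln_out nc nd hs (by rw [e2]; exact hP1 v h1) with h | h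
    · rw [e2] at h
      exact ⟨v, h1, h ▸ hc⟩
    · rw [e2] at h
      exact ⟨v, h1, h ▸ hd⟩
  · rcases ln_out na nb ht (by rw [e1]; exact hQ1 v h2) with h | h
    · rw [e1] at h
      exact ⟨v, h ▸ ha, h2⟩
    · rw [e1] at h
      exact ⟨v, h ▸ hb, h2⟩
  · exfalso
    have k1 : sd a b v = 0 := by rw [← e1, sd_self]
    have k2 : sd a b c + s * (sd a b d - sd a b c) = 0 := by rw [← sd_ln, e2, k1]
    -- `(1 - s) C + s D = 0` with `C D < 0` forces `0 < s < 1`
    have k3 : (1 - s) * sd a b c ^ 2 = -(s * (sd a b c * sd a b d)) := by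
      linear_combination (sd a b c) * k2
    have k4 : (1 - s) * (sd a b c * sd a b d) = -(s * sd a b d ^ 2) := by
      linear_combination (sd a b d) * k2
    rcases hs with hs | hs
    · have p1 : 0 ≤ s * (sd a b c * sd a b d) := mul_nonneg_of_nonpos_of_nonpos hs hS.le
      have hC : sd a b c ≠ 0 := by
        intro h
        rw [h] at hS
        simp at hS
      have p2 : 0 < sd a b c ^ 2 := by positivity
      nlinarith
    · have p1 : 0 ≤ (1 - s) * (sd a b c * sd a b d) :=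
        mul_nonneg_of_nonpos_of_nonpos (by linarith) hS.le
      have hD : sd a b d ≠ 0 := by
        intro h
        rw [h] at hS
        simp at hS
      have p2 : 0 < sd a b d ^ 2 := by positivity
      nlinarith

end Pool.Agent.H81.TG
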