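import Pool.Agent.H81.TG.Chord

/-!
Two continua in the closed unit disc with nearly the same three ends meet
(problem MP_90715c_gt, TwoGates).
-/

open Set Topology Filter

namespace Pool.Agent.H81.TG

/-- The inequality behind the sign rule. -/
lemma fac {p q c s : ℝ} (h1 : p ^ 2 + q ^ 2 = 1) (h2 : c ^ 2 + s ^ 2 = 1) (h : c < p) :
    0 < 1 + p ∧ |s * q| < (1 - c) * (1 + p) := by
  have hp : p ≤ 1 := by nlinarith [sq_nonneg q]
  have hc : -1 ≤ c := by nlinarith [sq_nonneg s]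
  have hp0 : 0 < 1 + p := by linarith
  have hc0 : 0 < 1 - c := by linarith
  refine ⟨hp0, ?_⟩
  apply abs_lt_of_sq_lt_sq _ (by positivity)
  have e : (s * q) ^ 2 = (1 - c) * (1 + c) * ((1 - p) * (1 + p)) := by
    have e1 : s ^ 2 = (1 - c) * (1 + c) := by linarith
    have e2 : q ^ 2 = (1 - p) * (1 + p) := by linarith
    rw [mul_pow, e1, e2]
  rw [e]
  have e3 : ((1 - c) * (1 + p)) ^ 2 - (1 - c) * (1 + c) * ((1 - p) * (1 + p))
      = (1 - c) * (1 + p) * (2 * (p - c)) := by ring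
  have : 0 < (1 - c) * (1 + p) * (2 * (p - c)) := by
    have : 0 < p - c := by linarith
    positivity
  linarith

/-- The sign rule. -/
lemma sign_rule {p q p' q' c s : ℝ} (h1 : p ^ 2 + q ^ 2 = 1) (h1' : p' ^ 2 + q' ^ 2 = 1)
    (h2 : c ^ 2 + s ^ 2 = 1) (h : c < p) (h' : c < p') (hq : 0 < q * q') :
    ((c - 1) * q - s * (p - 1)) * ((1 - c) * q' - s * (p' - 1)) < 0 := by
  obtain ⟨f1, f2⟩ := fac h1 h2 h
  obtain ⟨f1', f2'⟩ := fac h1' h2 h'
  have g1 := abs_lt.1 f2
  have g2 := abs_lt.1 f2'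
  have e1 : ((c - 1) * q - s * (p - 1)) * (1 + p) = q * ((c - 1) * (1 + p) + s * q) := by
    linear_combination (-s) * h1
  have e2 : ((1 - c) * q' - s * (p' - 1)) * (1 + p') = q' * ((1 - c) * (1 + p') + s * q') := by
    linear_combination (-s) * h1'
  have e3 : (((c - 1) * q - s * (p - 1)) * ((1 - c) * q' - s * (p' - 1))) * ((1 + p) * (1 + p'))
      = (q * q') * (((c - 1) * (1 + p) + s * q) * ((1 - c) * (1 + p') + s * q')) := by
    calc _ = (((c - 1) * q - s * (p - 1)) * (1 + p))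
          * (((1 - c) * q' - s * (p' - 1)) * (1 + p')) := by ring
      _ = _ := by rw [e1, e2]; ring
  have m1 : (c - 1) * (1 + p) + s * q < 0 := by nlinarith [g1.2]
  have m2 : 0 < (1 - c) * (1 + p') + s * q' := by nlinarith [g2.1]
  by_contra hcon
  push Not at hcon
  have n1 : 0 ≤ (((c - 1) * q - s * (p - 1)) * ((1 - c) * q' - s * (p' - 1)))
      * ((1 + p) * (1 + p')) := by positivity
  rw [e3] at n1
  have n2 : (q * q') * (((c - 1) * (1 + p) + s * q) * ((1 - c) * (1 + p') + s * q')) < 0 :=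
    mul_neg_of_pos_of_neg hq (mul_neg_of_neg_of_pos m1 m2)
  linarith

/-- Coordinates of `w / x` for `x` on the unit circle. -/
noncomputable def rx (x w : ℂ) : ℝ := x.re * w.re + x.im * w.im
noncomputable def ix (x w : ℂ) : ℝ := x.re * w.im - x.im * w.re

lemma rx_ix {x w : ℂ} (hx : ‖x‖ = 1) (hw : ‖w‖ = 1) : rx x w ^ 2 + ix x w ^ 2 = 1 := by
  have h1 := nsq hx
  have h2 := nsq hw
  have e : rx x w ^ 2 + ix x w ^ 2 = (x.re ^ 2 + x.im ^ 2) * (w.re ^ 2 + w.im ^ 2) := by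
    unfold rx ix; ring
  rw [e, h1, h2, one_mul]

lemma rx_dist {x w : ℂ} (hx : ‖x‖ = 1) (hw : ‖w‖ = 1) : dist x w ^ 2 = 2 - 2 * rx x w := by
  have h1 := nsq hx
  have h2 := nsq hw
  rw [dist_eq_norm, Complex.sq_norm, Complex.normSq_apply, Complex.sub_re, Complex.sub_im]
  unfold rx
  linear_combination h1 + h2

lemma rx_lt {x w v : ℂ} (hx : ‖x‖ = 1) (hw : ‖w‖ = 1) {x' : ℂ} (hx' : ‖x'‖ = 1) (hv : ‖v‖ = 1)
    {δ : ℝ} (h1 : dist x w < δ) (h2 : δ < dist x' v) : rx x' v < rx x w := by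
  have e1 := rx_dist hx hw
  have e2 := rx_dist hx' hv
  have h3 : dist x w < dist x' v := h1.trans h2
  have h4 : dist x w ^ 2 < dist x' v ^ 2 := by
    have := dist_nonneg (x := x) (y := w)
    gcongr
  linarith

lemma sd_fst {x x' y : ℂ} (hx : ‖x‖ = 1) :
    sd x x' y = (rx x x' - 1) * ix x y - ix x x' * (rx x y - 1) := by
  have h1 := nsq hx
  have e : (rx x x' - 1) * ix x y - ix x x' * (rx x y - 1)
      = (x.re ^ 2 + x.im ^ 2) * (x'.re * y.im - x'.im * y.re) - ix x y + ix x x' := by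
    unfold rx ix; ring
  rw [e, h1]
  unfold sd ix
  ring

lemma sd_snd {x x' y : ℂ} (hx : ‖x‖ = 1) (hx' : ‖x'‖ = 1) :
    sd x x' y = (1 - rx x x') * ix x' y - ix x x' * (rx x' y - 1) := by
  have h1 := nsq hx
  have h2 := nsq hx'
  unfold sd rx ix
  linear_combination (x.re * y.im - x.im * y.re) * h2

/-- Two of three nonzero real numbers have the same sign. -/
lemma pigeon {f : Fin 3 → ℝ} (h : ∀ i, f i ≠ 0) : ∃ i j, i ≠ j ∧ 0 < f i * f j := by
  by_contra hcon
  push Not at hcon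
  have h01 := hcon 0 1 (by decide)
  have h02 := hcon 0 2 (by decide)
  have h12 := hcon 1 2 (by decide)
  rcases lt_or_gt_of_ne (h 0) with a | a <;> rcases lt_or_gt_of_ne (h 1) with b | b <;>
    rcases lt_or_gt_of_ne (h 2) with c | c <;>
    first
      | exact absurd h01 (not_le.2 (mul_pos_of_neg_of_neg a b))
      | exact absurd h01 (not_le.2 (mul_pos a b))
      | exact absurd h02 (not_le.2 (mul_pos_of_neg_of_neg a c))
      | exact absurd h02 (not_le.2 (mul_pos a c))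
      | exact absurd h12 (not_le.2 (mul_pos_of_neg_of_neg b c))
      | exact absurd h12 (not_le.2 (mul_pos b c))

/-- Two continua in the closed unit disc with nearly the same three ends meet. -/
theorem three_gates {P Q : Set ℂ} (hP : IsCompact P) (hPc : IsPreconnected P) (hQ : IsCompact Q)
    (hQc : IsPreconnected Q) (hP1 : ∀ z ∈ P, ‖z‖ ≤ 1) (hQ1 : ∀ z ∈ Q, ‖z‖ ≤ 1)
    {x y : Fin 3 → ℂ} (hx : ∀ i, x i ∈ P) (hy : ∀ i, y i ∈ Q) (nx : ∀ i, ‖x i‖ = 1)
    (ny : ∀ i, ‖y i‖ = 1) {δ : ℝ} (hd : ∀ i j, i ≠ j → δ < dist (x i) (x j))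
    (hxy : ∀ i, dist (x i) (y i) < δ) : (P ∩ Q).Nonempty := by
  by_cases h0 : ∃ i, ix (x i) (y i) = 0
  · obtain ⟨i, hi⟩ := h0
    have h1 := rx_ix (nx i) (ny i)
    rw [hi] at h1
    have h2 : (rx (x i) (y i) - 1) * (rx (x i) (y i) + 1) = 0 := by linear_combination h1
    have h3 := rx_dist (nx i) (ny i)
    rcases mul_eq_zero.1 h2 with h | h
    · have h4 : rx (x i) (y i) = 1 := by linarith
      rw [h4] at h3
      have h5 : dist (x i) (y i) = 0 := by
        have : dist (x i) (y i) ^ 2 = 0 := by linarith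
        exact pow_eq_zero_iff (two_ne_zero) |>.1 this
      exact ⟨x i, hx i, by rw [dist_eq_zero.1 h5]; exact hy i⟩
    · exfalso
      have h4 : rx (x i) (y i) = -1 := by linarith
      obtain ⟨j, hj⟩ : ∃ j, i ≠ j := by
        fin_cases i
        · exact ⟨1, by decide⟩
        · exact ⟨0, by decide⟩
        · exact ⟨0, by decide⟩
      have h5 := rx_lt (nx i) (ny i) (nx i) (nx j) (hxy i) (hd i j hj)
      have h6 := rx_ix (nx i) (nx j)
      rw [h4] at h5
      nlinarith [sq_nonneg (ix (x i) (x j))]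
  · push Not at h0
    obtain ⟨j, k, hjk, hs⟩ := pigeon (f := fun i => ix (x i) (y i)) h0
    refine cross_disc hP hPc hQ hQc hP1 hQ1 (hx j) (hx k) (hy j) (hy k) (nx j) (nx k) (ny j)
      (ny k) ?_
    rw [sd_fst (nx j) (y := y j), sd_snd (nx j) (nx k) (y := y k)]
    exact sign_rule (rx_ix (nx j) (ny j)) (rx_ix (nx k) (ny k)) (rx_ix (nx j) (nx k))
      (rx_lt (nx j) (ny j) (nx j) (nx k) (hxy j) (hd j k hjk))
      (rx_lt (nx k) (ny k) (nx j) (nx k) (hxy k) (hd j k hjk)) hs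

end Pool.Agent.H81.TG
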