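import Pool.Agent.H81.TG.Main
import Pool.Agent.H13.WC.Cut

/-!
No robust triods in wandering compact sets of cocompact Kleinian groups
(problem MP_90715c_gt, TwoGates).
-/

open Matrix Set Filter Topology

namespace Pool.Agent.H81.TG

open Pool.Agent.H90.WC

/-- The part of a continuum between one of its points and a circle around a nearby point. -/
lemma leg {C : Set ℂ} (hC : IsCompact C) (hCc : IsPreconnected C) {p z' : ℂ} {r' : ℝ}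
    (hp : p ∈ C) (hz : ‖p - z'‖ < r') (hq : ∃ q ∈ C, r' ≤ ‖q - z'‖) :
    ∃ C' ⊆ C, IsPreconnected C' ∧ p ∈ C' ∧ (∀ v ∈ C', ‖v - z'‖ ≤ r') ∧
      ∃ v ∈ C', ‖v - z'‖ = r' := by
  have cd : Continuous (fun z : ℂ => ‖z - z'‖) := by fun_prop
  have hcov : C ⊆ {z : ℂ | ‖z - z'‖ ≤ r'} ∪ ({p} ∪ {z : ℂ | r' ≤ ‖z - z'‖}) := by
    intro z _
    rcases le_total ‖z - z'‖ r' with h | h
    · exact Or.inl h
    · exact Or.inr (Or.inr h)
  have hdis : ∀ z ∈ C, z ∈ ({p} : Set ℂ) → z ∉ {z : ℂ | r' ≤ ‖z - z'‖} := by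
    intro z _ h1 h2
    have e1 : z = p := h1
    have e2 : r' ≤ ‖z - z'‖ := h2
    rw [e1] at e2
    linarith
  obtain ⟨q, hq1, hq2⟩ := hq
  obtain ⟨C', hsub, -, h2, ⟨u, hu, hu'⟩, ⟨v, hv, hv'⟩⟩ := bumping hC hCc
    (isClosed_le cd continuous_const) isClosed_singleton
    (isClosed_le continuous_const cd) hcov hdis ⟨p, hp, rfl⟩ ⟨q, hq1, hq2⟩
  have hup : u = p := hu'
  subst hup
  exact ⟨C', fun z hz => (hsub hz).1, h2, hu, fun z hz => (hsub hz).2,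
    ⟨v, hv, le_antisymm (hsub hv).2 hv'⟩⟩

/-- At every small scale, two of three legs come close to each other. -/
theorem no_triod {K : Set (OnePoint ℂ)}
    (hK : ∀ η > (0 : ℝ), ∃ r₀ > (0 : ℝ), ∀ (z : ℂ) (r : ℝ), 0 < r → r < r₀ →
      ∃ (z' : ℂ) (r' : ℝ), 0 < r' ∧ ‖z' - z‖ ≤ η * r ∧ |r' - r| ≤ η * r ∧
        ∀ B : Set ℂ, IsPreconnected B → (∀ v ∈ B, (v : OnePoint ℂ) ∈ K ∧ ‖v - z'‖ ≤ r') →
          ∀ x : Fin 3 → ℂ, (∀ i, x i ∈ B ∧ ‖x i - z'‖ = r') →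
            ∃ i j, i ≠ j ∧ ‖x i - x j‖ < η * r)
    {κ : ℝ} (hκ : 0 < κ) :
    ∃ r₀ > (0 : ℝ), ∀ (p : ℂ) (r : ℝ), 0 < r → r < r₀ → ∀ C : Fin 3 → Set ℂ,
      (∀ j, IsCompact (C j) ∧ IsPreconnected (C j) ∧ p ∈ C j ∧
        (∀ v ∈ C j, (v : OnePoint ℂ) ∈ K) ∧ ∃ q ∈ C j, 2 * r ≤ ‖q - p‖) →
      ∃ j k, j ≠ k ∧ ∃ v ∈ C j, ∃ w ∈ C k, |‖v - p‖ - r| ≤ κ * r ∧ |‖w - p‖ - r| ≤ κ * r ∧
        ‖v - w‖ < κ * r := by
  set η : ℝ := min (κ / 2) (1 / 4) with hη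
  have hη0 : 0 < η := lt_min (by linarith) (by norm_num)
  have hη1 : η ≤ κ / 2 := min_le_left _ _
  have hη2 : η ≤ 1 / 4 := min_le_right _ _
  obtain ⟨r₀, hr₀, h⟩ := hK η hη0
  refine ⟨r₀, hr₀, fun p r hr hrr C hC => ?_⟩
  obtain ⟨z', r', -, hz', hr', hB⟩ := h p r hr hrr
  have hηr : 0 < η * r := mul_pos hη0 hr
  have hη1r : η * r ≤ κ / 2 * r := mul_le_mul_of_nonneg_right hη1 hr.le
  have hη2r : η * r ≤ 1 / 4 * r := mul_le_mul_of_nonneg_right hη2 hr.le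
  have hr1 := abs_le.1 hr'
  have hpz : ‖p - z'‖ ≤ η * r := by rw [norm_sub_rev]; exact hz'
  have hlegs : ∀ j, ∃ C' ⊆ C j, IsPreconnected C' ∧ p ∈ C' ∧ (∀ v ∈ C', ‖v - z'‖ ≤ r') ∧
      ∃ v ∈ C', ‖v - z'‖ = r' := by
    intro j
    obtain ⟨h1, h2, h3, h4, q, hq, hq2⟩ := hC j
    refine leg h1 h2 h3 (by linarith [hr1.1]) ⟨q, hq, ?_⟩
    have e : q - p = (q - z') - (p - z') := by ring
    rw [e] at hq2
    have := norm_sub_le (q - z') (p - z')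
    linarith [hr1.2]
  choose C' hsub hcon hpC hle v hv hvr using hlegs
  have dist_p : ∀ j, |‖v j - p‖ - r| ≤ κ * r := by
    intro j
    have e1 : v j - p = (v j - z') - (p - z') := by ring
    have e2 : v j - z' = (v j - p) + (p - z') := by ring
    have f1 := norm_sub_le (v j - z') (p - z')
    rw [← e1, hvr j] at f1
    have f2 := norm_add_le (v j - p) (p - z')
    rw [← e2, hvr j] at f2
    rw [abs_le]
    constructor <;> linarith [hr1.1, hr1.2]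
  obtain ⟨i, j, hij, hd⟩ := hB (⋃ j, C' j)
    (isPreconnected_iUnion ⟨p, mem_iInter.2 hpC⟩ hcon)
    (by
      intro w hw
      obtain ⟨j, hj⟩ := mem_iUnion.1 hw
      exact ⟨(hC j).2.2.2.1 w (hsub j hj), hle j w hj⟩)
    v (fun i => ⟨mem_iUnion.2 ⟨i, hv i⟩, hvr i⟩)
  exact ⟨i, j, hij, v i, hsub i (hv i), v j, hsub j (hv j), dist_p i, dist_p j, by linarith⟩

end Pool.Agent.H81.TG
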